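import Pool.Agent.W586.CS.Stm

/-!
Project CS, part SYM: the free operator is symmetric.
-/

set_option autoImplicit false
open MvPolynomial

namespace Pool.Agent.W803.CS.Sym

open Pool.Agent.W586.CS

theorem GX {d : ℕ} {ι : Type} (j : Fin d) (f : V d ι) :
    G ι j (Xm ι j f) = Xm ι j (G ι j f) := by
  funext I a
  show sg j I • (X j * f (fl j I) a) = X j * (sg j I • f (fl j I) a)
  rw [mul_smul_comm]

theorem CX {d : ℕ} {ι : Type} (j : Fin d) (f : V d ι) :
    Cc ι j (Xm ι j f) = Xm ι j (Cc ι j f) := by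
  funext I a
  show (ep j I * sg j I) • (X j * f (fl j I) a) = X j * ((ep j I * sg j I) • f (fl j I) a)
  rw [mul_smul_comm]

theorem CD {d : ℕ} {ι : Type} (j : Fin d) (f : V d ι) :
    Cc ι j (Dm ι j f) = Dm ι j (Cc ι j f) := by
  funext I a
  show (ep j I * sg j I) • pderiv j (f (fl j I) a) = pderiv j ((ep j I * sg j I) • f (fl j I) a)
  exact ((pderiv j).map_smul (ep j I * sg j I) (f (fl j I) a)).symm

theorem main : S_REL → S_IP → S_SYM := by
  intro _ hip d ι _ g f h
  obtain ⟨hsym, hadd, hsmul, _, hG, hC, hX, hD, _⟩ := hip d ι g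
  have hadd' : ∀ f h h' : V d ι, ip g f (h + h') = ip g f h + ip g f h' := by
    intro f h h'
    rw [hsym f (h + h'), hadd, hsym h f, hsym h' f]
  have hsmul' : ∀ (c : ℝ) (f h : V d ι), ip g f (c • h) = c * ip g f h := by
    intro c f h
    rw [hsym f (c • h), hsmul, hsym h f]
  have hneg : ∀ (f h : V d ι), ip g (-f) h = -ip g f h := by
    intro f h
    have h1 := hsmul (-1) f h
    rw [neg_one_smul] at h1
    rw [h1]; ring
  have hneg' : ∀ (f h : V d ι), ip g f (-h) = -ip g f h := by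
    intro f h
    rw [hsym f (-h), hneg, hsym h f]
  have hsub : ∀ f f' h : V d ι, ip g (f - f') h = ip g f h - ip g f' h := by
    intro f f' h
    rw [sub_eq_add_neg, hadd, hneg]; ring
  have hsub' : ∀ f h h' : V d ι, ip g f (h - h') = ip g f h - ip g f h' := by
    intro f h h'
    rw [sub_eq_add_neg, hadd', hneg']; ring
  have hzero : ∀ h : V d ι, ip g 0 h = 0 := by
    intro h
    have h1 := hsmul 0 0 h
    rw [zero_smul] at h1
    rw [h1]; ring
  have hzero' : ∀ h : V d ι, ip g h 0 = 0 := by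
    intro h
    rw [hsym, hzero]
  -- one term
  have hterm : ∀ (j : Fin d) (f h : V d ι),
      ip g ((G ι j ∘ₗ Xm ι j + Cc ι j ∘ₗ (Dm ι j - Xm ι j)) f) h
        = ip g f ((G ι j ∘ₗ Xm ι j + Cc ι j ∘ₗ (Dm ι j - Xm ι j)) h) := by
    intro j f h
    simp only [LinearMap.add_apply, LinearMap.comp_apply, LinearMap.sub_apply]
    rw [hadd, hadd', hG, hX, ← GX, hC, hsub, hD, hX, map_sub, hsub', hsub', CX, CD, hsmul']
    ring
  have hsum : ∀ (s : Finset (Fin d)) (f h : V d ι),
      ip g ((∑ j ∈ s, (G ι j ∘ₗ Xm ι j + Cc ι j ∘ₗ (Dm ι j - Xm ι j))) f) h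
        = ip g f ((∑ j ∈ s, (G ι j ∘ₗ Xm ι j + Cc ι j ∘ₗ (Dm ι j - Xm ι j))) h) := by
    classical
    intro s
    induction s using Finset.induction_on with
    | empty =>
      intro f h
      simp only [Finset.sum_empty, LinearMap.zero_apply]
      rw [hzero, hzero']
    | insert a s ha ih =>
      intro f h
      rw [Finset.sum_insert ha]
      rw [LinearMap.add_apply (G ι a ∘ₗ Xm ι a + Cc ι a ∘ₗ (Dm ι a - Xm ι a)) _ f,
        LinearMap.add_apply (G ι a ∘ₗ Xm ι a + Cc ι a ∘ₗ (Dm ι a - Xm ι a)) _ h,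
        hadd, hadd', ih, hterm]
  exact hsum Finset.univ f h

end Pool.Agent.W803.CS.Sym
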